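import Pool.Agent.Q117.SS.Count

/-! Supersaturation for clique counts: removing vertices of small degree. -/

set_option autoImplicit false

namespace Q117.SS

open Finset SimpleGraph

variable {V : Type*} [Fintype V] (G : SimpleGraph V)

open Classical in
/-- neighbours -/
noncomputable def nb (v : V) : Finset V := univ.filter fun u => G.Adj v u

lemma sum_nb : ∑ v, (nb G v).card = D G := by
  classical
  unfold D nb
  rw [card_filter, Fintype.sum_prod_type]
  refine sum_congr rfl fun u _ => ?_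
  rw [card_filter]

open Classical in
lemma low (W : Finset V) (s : ℕ) : ((OC G s).filter fun f => ∃ i, f i ∉ W).card ≤
    s * ∑ v ∈ Wᶜ, (nb G v).card ^ (s - 1) := by
  have h1 : ((OC G s).filter fun f => ∃ i, f i ∉ W) ⊆
      (univ : Finset (Fin s)).biUnion fun i => (Wᶜ).biUnion fun v =>
        Fintype.piFinset fun j => if j = i then {v} else nb G v := by
    intro f hf
    rw [mem_filter] at hf
    obtain ⟨hf, i, hi⟩ := hf
    rw [mem_biUnion]
    refine ⟨i, mem_univ _, ?_⟩
    rw [mem_biUnion]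
    refine ⟨f i, by rw [mem_compl]; exact hi, ?_⟩
    rw [Fintype.mem_piFinset]
    intro j
    split_ifs with h
    · rw [h, mem_singleton]
    · unfold nb
      rw [mem_filter]
      exact ⟨mem_univ _, mem_OC.1 hf i j (fun e => h e.symm)⟩
  refine (card_le_card h1).trans (card_biUnion_le.trans ?_)
  have h2 : ∀ i ∈ (univ : Finset (Fin s)), ((Wᶜ).biUnion fun v =>
      Fintype.piFinset fun j => if j = i then {v} else nb G v).card ≤
        ∑ v ∈ Wᶜ, (nb G v).card ^ (s - 1) := by
    intro i _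
    refine card_biUnion_le.trans (sum_le_sum fun v _ => ?_)
    rw [Fintype.card_piFinset]
    have h3 : ∀ j, (if j = i then {v} else nb G v : Finset V).card =
        if j = i then 1 else (nb G v).card := by
      intro j
      split_ifs
      · rw [card_singleton]
      · rfl
    rw [prod_congr rfl fun j _ => h3 j, prod_ite, prod_const_one, one_mul, prod_const]
    apply le_of_eq
    congr 1
    have h4 : (univ.filter fun j => ¬ j = i) = univ.erase i := by
      ext j; simp
    rw [h4, card_erase_of_mem (mem_univ _), card_univ, Fintype.card_fin]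
  refine (sum_le_card_nsmul _ _ _ h2).trans ?_
  rw [card_univ, Fintype.card_fin, smul_eq_mul]

/-- the subgraph induced by `W` -/
def ind (W : Finset V) : SimpleGraph W := G.comap Subtype.val

open Classical in
lemma A_ind (W : Finset V) (s : ℕ) :
    A (ind G W) s = ((OC G s).filter fun f => ∀ i, f i ∈ W).card := by
  unfold A
  have e : ((OC G s).filter fun f => ∀ i, f i ∈ W) =
      (OC (ind G W) s).image fun f i => (f i : V) := by
    ext f
    rw [mem_filter, mem_image]
    constructor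
    · rintro ⟨h1, h2⟩
      refine ⟨fun i => ⟨f i, h2 i⟩, ?_, rfl⟩
      rw [mem_OC] at h1 ⊢
      exact h1
    · rintro ⟨g, hg, rfl⟩
      rw [mem_OC] at hg ⊢
      exact ⟨hg, fun i => (g i).2⟩
  rw [e, card_image_of_injective]
  intro f g h
  funext i
  exact Subtype.ext (congrFun h i)

lemma A_ind_le (W : Finset V) (s : ℕ) : A (ind G W) s ≤ A G s := by
  classical
  rw [A_ind]
  exact card_le_card (filter_subset _ _)

lemma D_ind_le (W : Finset V) : D (ind G W) ≤ D G := by
  classical
  unfold D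
  refine card_le_card_of_injOn (fun p => ((p.1 : V), (p.2 : V))) ?_ ?_
  · intro p hp
    rw [mem_coe, mem_filter] at hp ⊢
    exact ⟨mem_univ _, hp.2⟩
  · intro p _ q _ h
    simp only [Prod.mk.injEq] at h
    exact Prod.ext (Subtype.ext h.1) (Subtype.ext h.2)

open Classical in
lemma A_le_ind (W : Finset V) (s : ℕ) :
    A G s ≤ A (ind G W) s + s * ∑ v ∈ Wᶜ, (nb G v).card ^ (s - 1) := by
  rw [A_ind]
  have h1 := low G W s
  have h2 : A G s = ((OC G s).filter fun f => ∀ i, f i ∈ W).card +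
      ((OC G s).filter fun f => ∃ i, f i ∉ W).card := by
    unfold A
    rw [← card_filter_add_card_filter_not (s := OC G s) (fun f => ∀ i, f i ∈ W)]
    congr 2
    ext f
    simp
  omega

open Classical in
/-- vertices of degree at least `γ √D` -/
noncomputable def big (γ : ℝ) : Finset V :=
  univ.filter fun v => γ * Real.sqrt (D G) ≤ ((nb G v).card : ℝ)

theorem clean (γ : ℝ) (hγ : 0 ≤ γ) (s : ℕ) (hs : 2 ≤ s) :
    (A G s : ℝ) ≤ A (ind G (big G γ)) s + s * γ ^ (s - 2) * Real.sqrt (D G) ^ s := by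
  classical
  obtain ⟨k, rfl⟩ : ∃ k, s = k + 2 := ⟨s - 2, by omega⟩
  have h1 := A_le_ind G (big G γ) (k + 2)
  have h2 : ((∑ v ∈ (big G γ)ᶜ, (nb G v).card ^ (k + 2 - 1) : ℕ) : ℝ) ≤
      γ ^ k * Real.sqrt (D G) ^ (k + 2) := by
    push_cast
    have h3 : ∀ v ∈ (big G γ)ᶜ, ((nb G v).card : ℝ) ^ (k + 2 - 1) ≤
        (γ * Real.sqrt (D G)) ^ k * (nb G v).card := by
      intro v hv
      rw [mem_compl] at hv
      unfold big at hv
      rw [mem_filter] at hv
      push Not at hv
      have := hv (mem_univ _)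
      rw [show k + 2 - 1 = k + 1 from rfl, pow_succ]
      exact mul_le_mul_of_nonneg_right (pow_le_pow_left₀ (Nat.cast_nonneg _) this.le _)
        (Nat.cast_nonneg _)
    refine (sum_le_sum h3).trans ?_
    rw [← mul_sum]
    have h4 : (∑ v ∈ (big G γ)ᶜ, ((nb G v).card : ℝ)) ≤ D G := by
      rw [← sum_nb G]
      push_cast
      exact sum_le_univ_sum_of_nonneg fun _ => Nat.cast_nonneg _
    have h5 : (D G : ℝ) = Real.sqrt (D G) ^ 2 := (Real.sq_sqrt (Nat.cast_nonneg _)).symm
    calc (γ * Real.sqrt (D G)) ^ k * ∑ v ∈ (big G γ)ᶜ, ((nb G v).card : ℝ)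
        ≤ (γ * Real.sqrt (D G)) ^ k * D G :=
          mul_le_mul_of_nonneg_left h4 (by positivity)
      _ = (γ * Real.sqrt (D G)) ^ k * Real.sqrt (D G) ^ 2 := by rw [← h5]
      _ = γ ^ k * Real.sqrt (D G) ^ (k + 2) := by rw [mul_pow, pow_add]; ring
  have h6 : (A G (k + 2) : ℝ) ≤ A (ind G (big G γ)) (k + 2) +
      (k + 2 : ℕ) * ((∑ v ∈ (big G γ)ᶜ, (nb G v).card ^ (k + 2 - 1) : ℕ) : ℝ) := by
    exact_mod_cast h1
  refine h6.trans ?_
  rw [show k + 2 - 2 = k from rfl, mul_assoc]
  gcongr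

theorem big_card (γ : ℝ) : (big G γ).card * γ * Real.sqrt (D G) ≤ D G := by
  classical
  have h1 : ((big G γ).card : ℝ) * (γ * Real.sqrt (D G)) ≤ ∑ v ∈ big G γ, ((nb G v).card : ℝ) := by
    rw [← nsmul_eq_mul]
    apply card_nsmul_le_sum
    intro v hv
    unfold big at hv
    rw [mem_filter] at hv
    exact hv.2
  have h2 : (∑ v ∈ big G γ, ((nb G v).card : ℝ)) ≤ D G := by
    rw [← sum_nb G]
    push_cast
    exact sum_le_univ_sum_of_nonneg fun _ => Nat.cast_nonneg _
  rw [mul_assoc]
  exact h1.trans h2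

theorem big_card' (γ : ℝ) : (big G γ).card * γ ≤ Real.sqrt (D G) ∨ D G = 0 := by
  rcases Nat.eq_zero_or_pos (D G) with h | h
  · exact Or.inr h
  · left
    have h1 := big_card G γ
    have h2 : 0 < Real.sqrt (D G) := Real.sqrt_pos.2 (by exact_mod_cast h)
    have h5 : (D G : ℝ) = Real.sqrt (D G) * Real.sqrt (D G) :=
      (Real.mul_self_sqrt (Nat.cast_nonneg _)).symm
    rw [h5] at h1
    have h6 : Real.sqrt (Real.sqrt (D G) * Real.sqrt (D G)) = Real.sqrt (D G) := by
      rw [← h5]
    rw [h6] at h1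
    exact le_of_mul_le_mul_right h1 h2

lemma A_zero_of_D (s : ℕ) (hs : 2 ≤ s) (h : D G = 0) : A G s = 0 := by
  classical
  by_contra hne
  obtain ⟨f, hf⟩ := card_pos.1 (Nat.pos_of_ne_zero hne)
  rw [mem_OC] at hf
  have := hf ⟨0, by omega⟩ ⟨1, by omega⟩ (by simp [Fin.ext_iff])
  unfold D at h
  rw [card_eq_zero, filter_eq_empty_iff] at h
  exact h (mem_univ (f ⟨0, by omega⟩, f ⟨1, by omega⟩)) this

theorem A_bound (s : ℕ) (hs : 2 ≤ s) : (A G s : ℝ) ≤ (s + 1) * Real.sqrt (D G) ^ s := by
  rcases big_card' G 1 with h | h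
  · have h1 := clean G 1 zero_le_one s hs
    have h2 : (A (ind G (big G 1)) s : ℝ) ≤ Real.sqrt (D G) ^ s := by
      have h3 := A_le_pow (ind G (big G 1)) s
      rw [Fintype.card_coe] at h3
      rw [mul_one] at h
      calc (A (ind G (big G 1)) s : ℝ) ≤ ((big G 1).card : ℝ) ^ s := by exact_mod_cast h3
        _ ≤ _ := pow_le_pow_left₀ (Nat.cast_nonneg _) h _
    rw [one_pow, mul_one] at h1
    linarith
  · rw [A_zero_of_D G s hs h]
    push_cast
    positivity

end Q117.SS
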