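import Mathlib

/-! Supersaturation for clique counts: counting tools. -/

set_option autoImplicit false

namespace Q117.SS

open Finset SimpleGraph

section
variable {V : Type*} [Fintype V]

open Classical in
/-- ordered `k`-cliques -/
noncomputable def OC (G : SimpleGraph V) (k : ℕ) : Finset (Fin k → V) :=
  univ.filter fun f => ∀ i j, i ≠ j → G.Adj (f i) (f j)

/-- number of ordered `k`-cliques -/
noncomputable def A (G : SimpleGraph V) (k : ℕ) : ℕ := (OC G k).card

open Classical in
/-- number of ordered adjacent pairs -/
noncomputable def D (G : SimpleGraph V) : ℕ := (univ.filter fun p : V × V => G.Adj p.1 p.2).card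

lemma mem_OC {G : SimpleGraph V} {k : ℕ} {f : Fin k → V} :
    f ∈ OC G k ↔ ∀ i j, i ≠ j → G.Adj (f i) (f j) := by
  simp [OC]

lemma OC_inj {G : SimpleGraph V} {k : ℕ} {f : Fin k → V} (h : f ∈ OC G k) :
    Function.Injective f := by
  rw [mem_OC] at h
  intro i j hij
  by_contra hne
  have := h i j hne
  rw [hij] at this
  exact G.irrefl this

theorem A_eq (G : SimpleGraph V) (k : ℕ) :
    A G k = k.factorial * {S : Finset V | G.IsNClique k S}.ncard := by
  classical
  have hcl : {S : Finset V | G.IsNClique k S} =
      ((univ.filter fun S => G.IsNClique k S : Finset (Finset V)) : Set (Finset V)) := by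
    ext; simp
  rw [hcl, Set.ncard_coe_finset]
  unfold A
  rw [card_eq_sum_card_fiberwise (f := fun f : Fin k → V => univ.image f)
    (t := univ.filter fun S => G.IsNClique k S)]
  · have : ∀ K ∈ (univ.filter fun S => G.IsNClique k S : Finset (Finset V)),
        ((OC G k).filter fun f => univ.image f = K).card = k.factorial := by
      intro K hK
      rw [mem_filter] at hK
      have hK := hK.2
      have e : ((OC G k).filter fun f => univ.image f = K) =
          (univ : Finset (Fin k ↪ K)).image (fun e => fun i => (e i : V)) := by
        ext f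
        rw [mem_filter, mem_image]
        constructor
        · rintro ⟨h1, h2⟩
          refine ⟨⟨fun i => ⟨f i, ?_⟩, ?_⟩, mem_univ _, rfl⟩
          · rw [← h2]; exact mem_image_of_mem _ (mem_univ _)
          · intro i j hij
            exact OC_inj h1 (congrArg Subtype.val hij)
        · rintro ⟨e, -, rfl⟩
          have hinj : Function.Injective fun i => (e i : V) :=
            Subtype.val_injective.comp e.injective
          refine ⟨?_, ?_⟩
          · rw [mem_OC]
            intro i j hij
            exact hK.isClique (e i).2 (e j).2 (fun h => hij (hinj h))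
          · apply eq_of_subset_of_card_le
            · intro x hx
              rw [mem_image] at hx
              obtain ⟨i, -, rfl⟩ := hx
              exact (e i).2
            · rw [card_image_of_injective _ hinj, card_univ, Fintype.card_fin, hK.card_eq]
      rw [e, card_image_of_injective]
      · rw [card_univ, Fintype.card_embedding_eq, Fintype.card_fin, Fintype.card_coe, hK.card_eq,
          Nat.descFactorial_self]
      · intro e e' h
        ext i
        exact congrFun h i
    rw [sum_congr rfl this, sum_const, smul_eq_mul, mul_comm]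
  · intro f hf
    rw [mem_coe] at hf
    rw [mem_coe, mem_filter]
    refine ⟨mem_univ _, ?_, ?_⟩
    · intro x hx y hy hxy
      rw [mem_coe, mem_image] at hx hy
      obtain ⟨i, -, rfl⟩ := hx
      obtain ⟨j, -, rfl⟩ := hy
      exact mem_OC.1 hf i j (fun h => hxy (by rw [h]))
    · rw [card_image_of_injective _ (OC_inj hf), card_univ, Fintype.card_fin]

theorem cliqueFree_iff (G : SimpleGraph V) (k : ℕ) : G.CliqueFree k ↔ A G k = 0 := by
  classical
  rw [A_eq, Nat.mul_eq_zero]
  constructor
  · intro h
    right
    have : {S : Finset V | G.IsNClique k S} = ∅ := by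
      ext S
      simp [h S]
    rw [this, Set.ncard_empty]
  · rintro (h | h)
    · exact absurd h (Nat.factorial_ne_zero _)
    · rw [Set.ncard_eq_zero (Set.toFinite _)] at h
      intro S hS
      have : S ∈ {S : Finset V | G.IsNClique k S} := hS
      rw [h] at this
      exact this

theorem D_eq (G : SimpleGraph V) : D G = 2 * G.edgeSet.ncard := by
  classical
  have h1 := G.sum_degrees_eq_twice_card_edges
  have h2 : D G = ∑ v, G.degree v := by
    unfold D
    rw [card_filter, Fintype.sum_prod_type]
    refine sum_congr rfl fun u _ => ?_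
    rw [← card_neighborFinset_eq_degree, neighborFinset_eq_filter, card_filter]
  rw [h2, h1, Set.ncard_eq_toFinset_card']
  rfl

lemma A_le_pow (G : SimpleGraph V) (k : ℕ) : A G k ≤ Fintype.card V ^ k := by
  unfold A
  refine (card_le_univ _).trans ?_
  rw [Fintype.card_fun, Fintype.card_fin]

lemma D_le_sq (G : SimpleGraph V) : D G ≤ Fintype.card V ^ 2 := by
  unfold D
  refine (card_le_univ _).trans ?_
  rw [Fintype.card_prod, sq]

end

/-! ### fibres of restriction -/

section
variable {κ τ U : Type*} [Fintype κ] [Fintype τ] [Fintype U]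

open Classical in
lemma fib_one (g : κ → τ) (hg : Function.Injective g) (h : κ → U) :
    (univ.filter fun φ : τ → U => (fun l => φ (g l)) = h).card =
      Fintype.card U ^ (Fintype.card τ - Fintype.card κ) := by
  have e : (univ.filter fun φ : τ → U => (fun l => φ (g l)) = h) =
      Fintype.piFinset (fun t => if ht : ∃ l, g l = t then {h ht.choose} else univ) := by
    ext φ
    rw [mem_filter, Fintype.mem_piFinset]
    constructor
    · rintro ⟨-, hφ⟩ t
      split_ifs with ht
      · rw [mem_singleton, ← hφ]
        exact congrArg φ ht.choose_spec.symm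
      · exact mem_univ _
    · intro hφ
      refine ⟨mem_univ _, ?_⟩
      funext l
      have := hφ (g l)
      have ht : ∃ l', g l' = g l := ⟨l, rfl⟩
      rw [dif_pos ht, mem_singleton] at this
      rw [this]
      congr 1
      exact hg ht.choose_spec
  rw [e, Fintype.card_piFinset]
  have h2 : ∀ t, (if ht : ∃ l, g l = t then {h ht.choose} else (univ : Finset U)).card =
      if ∃ l, g l = t then 1 else Fintype.card U := by
    intro t
    split_ifs with ht
    · rw [card_singleton]
    · rfl
  rw [prod_congr rfl fun t _ => h2 t, prod_ite, prod_const_one, one_mul, prod_const]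
  congr 1
  have h3 : (univ.filter fun t => ¬ ∃ l, g l = t) = (univ.image g)ᶜ := by
    ext t; simp
  rw [h3, card_compl, card_image_of_injective _ hg, card_univ]

open Classical in
lemma fib (g : κ → τ) (hg : Function.Injective g) (P : Finset (κ → U)) :
    (univ.filter fun φ : τ → U => (fun l => φ (g l)) ∈ P).card =
      P.card * Fintype.card U ^ (Fintype.card τ - Fintype.card κ) := by
  rw [card_eq_sum_card_fiberwise (f := fun φ : τ → U => fun l => φ (g l)) (t := P)]
  · rw [← smul_eq_mul, ← sum_const]
    refine sum_congr rfl fun h hh => ?_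
    rw [← fib_one g hg h]
    congr 1
    ext φ
    simp only [mem_filter, mem_univ, true_and]
    constructor
    · rintro ⟨-, h2⟩; exact h2
    · intro h2
      refine ⟨?_, h2⟩
      rw [h2]; exact hh
  · intro φ hφ
    rw [mem_coe, mem_filter] at hφ
    exact hφ.2

lemma not_inj (S : Finset (κ → τ)) (hS : ∀ q ∈ S, ¬ Function.Injective q) :
    S.card ≤ Fintype.card κ ^ 2 * Fintype.card τ ^ (Fintype.card κ - 1) := by
  classical
  have h1 : S ⊆ (univ : Finset (κ × κ)).biUnion fun p =>
        S.filter fun q : κ → τ => p.1 ≠ p.2 ∧ q p.1 = q p.2 := by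
    intro q hq'
    have hq := hS q hq'
    unfold Function.Injective at hq
    push Not at hq
    obtain ⟨a, b, h1, h2⟩ := hq
    rw [mem_biUnion]
    exact ⟨(a, b), mem_univ _, by rw [mem_filter]; exact ⟨hq', h2, h1⟩⟩
  refine (card_le_card h1).trans (card_biUnion_le.trans ?_)
  have h2 : ∀ p ∈ (univ : Finset (κ × κ)),
      (S.filter fun q : κ → τ => p.1 ≠ p.2 ∧ q p.1 = q p.2).card ≤
        Fintype.card τ ^ (Fintype.card κ - 1) := by
    rintro ⟨a, b⟩ -
    have h3 : (univ : Finset ({c // c ≠ b} → τ)).card =
        Fintype.card τ ^ (Fintype.card κ - 1) := by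
      rw [card_univ, Fintype.card_fun, Fintype.card_subtype_compl, Fintype.card_subtype_eq]
    rw [← h3]
    refine card_le_card_of_injOn (fun q => fun c => q c.1) (fun _ _ => mem_univ _) ?_
    intro q hq q' hq' h
    rw [mem_coe, mem_filter] at hq hq'
    obtain ⟨-, hab, e1⟩ := hq
    obtain ⟨-, -, e2⟩ := hq'
    simp only at hab e1 e2
    funext c
    by_cases hc : c = b
    · rw [hc, ← e1, ← e2]
      exact congrFun h ⟨a, hab⟩
    · exact congrFun h ⟨c, hc⟩
  refine (sum_le_card_nsmul _ _ _ h2).trans ?_
  rw [card_univ, Fintype.card_prod, smul_eq_mul, sq]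

end

end Q117.SS
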