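import Pool.Agent.Q117.SS.Sample

/-! Supersaturation for clique counts: lower bound for `mex`. -/

set_option autoImplicit false

namespace Q117.SS

open Finset SimpleGraph

/-- number of `k`-cliques -/
noncomputable def cl {V : Type*} (G : SimpleGraph V) (k : ℕ) : ℕ :=
  {S : Finset V | G.IsNClique k S}.ncard

lemma ct_congr {α β : Type*} [Fintype α] [Fintype β] (e : α ≃ β) (p : α → Prop) (q : β → Prop)
    (h : ∀ a, p a ↔ q (e a)) : ct p = ct q := by
  classical
  unfold ct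
  refine card_bij (fun a _ => e a) ?_ (fun _ _ _ _ h => e.injective h) ?_
  · intro a ha
    rw [mem_filter] at ha ⊢
    exact ⟨mem_univ _, (h a).1 ha.2⟩
  · intro b hb
    rw [mem_filter] at hb
    exact ⟨e.symm b, by rw [mem_filter]; exact ⟨mem_univ _, by rw [h]; simpa using hb.2⟩,
      by simp⟩

lemma ct_prod {α β : Type*} [Fintype α] [Fintype β] (p : α → Prop) :
    ct (fun x : α × β => p x.1) = ct p * Fintype.card β := by
  classical
  have h1 : ct (fun x : α × β => p x.1) = ((univ.filter p) ×ˢ (univ : Finset β)).card :=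
    ct_eq _ _ fun x => by simp
  have h2 : ct p = (univ.filter p).card := ct_eq _ _ fun x => by simp
  rw [h1, h2, card_product, card_univ]

section iso
variable {V W : Type*} [Fintype V] [Fintype W]

lemma A_equiv (G : SimpleGraph W) (e : V ≃ W) (k : ℕ) : A (G.comap e) k = A G k := by
  rw [A_ct, A_ct]
  exact ct_congr (Equiv.arrowCongr (Equiv.refl _) e) _ _ fun f => Iff.rfl

lemma D_ct1 (G : SimpleGraph V) : D G = ct fun p : V × V => G.Adj p.1 p.2 := by
  classical
  exact (ct_eq _ _ fun x => by simp).symm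

lemma D_equiv (G : SimpleGraph W) (e : V ≃ W) : D (G.comap e) = D G := by
  rw [D_ct1, D_ct1]
  exact ct_congr (Equiv.prodCongr e e) _ _ fun f => Iff.rfl

end iso

/-! ### blow-up -/

section blow
variable {X : Type*} [Fintype X] (H : SimpleGraph X) (t : ℕ)

lemma A_blow (k : ℕ) : A (H.comap (Prod.fst : X × Fin t → X)) k = A H k * t ^ k := by
  rw [A_ct, A_ct]
  have h1 : ct (isOC (H.comap (Prod.fst : X × Fin t → X)) k) =
      ct (fun x : (Fin k → X) × (Fin k → Fin t) => isOC H k x.1) :=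
    ct_congr (Equiv.arrowProdEquivProdArrow _ _ _) _ _ fun f => Iff.rfl
  rw [h1, ct_prod, Fintype.card_fun, Fintype.card_fin, Fintype.card_fin]

lemma D_blow : D (H.comap (Prod.fst : X × Fin t → X)) = D H * t ^ 2 := by
  rw [D_ct1, D_ct1]
  have h1 : ct (fun p : (X × Fin t) × (X × Fin t) =>
      (H.comap (Prod.fst : X × Fin t → X)).Adj p.1 p.2) =
      ct (fun x : (X × X) × (Fin t × Fin t) => H.Adj x.1.1 x.1.2) :=
    ct_congr (Equiv.prodProdProdComm _ _ _ _) _ _ fun f => Iff.rfl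
  rw [h1, ct_prod (fun p : X × X => H.Adj p.1 p.2), Fintype.card_prod, Fintype.card_fin, sq]

end blow

/-! ### adding a matching -/

/-- disjoint union with a matching with `q` edges -/
def am {X : Type} (H : SimpleGraph X) (q : ℕ) : SimpleGraph (X ⊕ (Fin q × Bool)) where
  Adj a b := match a, b with
    | .inl u, .inl v => H.Adj u v
    | .inr u, .inr v => u.1 = v.1 ∧ u.2 ≠ v.2
    | .inl _, .inr _ => False
    | .inr _, .inl _ => False
  symm := ⟨by
    rintro (u | u) (v | v) h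
    · exact H.adj_symm h
    · exact h
    · exact h
    · exact ⟨h.1.symm, h.2.symm⟩⟩
  loopless := ⟨by
    rintro (u | u) h
    · exact H.irrefl h
    · exact h.2 rfl⟩

section am
variable {X : Type} [Fintype X] (H : SimpleGraph X) (q : ℕ)

lemma A_am (k : ℕ) : A H k ≤ A (am H q) k := by
  classical
  unfold A
  refine card_le_card_of_injOn (fun f i => Sum.inl (f i)) ?_ ?_
  · intro f hf
    rw [mem_coe, mem_OC] at hf ⊢
    exact hf
  · intro f _ g _ h
    funext i
    exact Sum.inl_injective (congrFun h i)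

lemma A_am_zero (k : ℕ) (hk : 3 ≤ k) (h : A H k = 0) : A (am H q) k = 0 := by
  classical
  by_contra hne
  obtain ⟨f, hf⟩ := card_pos.1 (Nat.pos_of_ne_zero hne)
  rw [mem_OC] at hf
  have h0 : 0 < k := by omega
  rcases hv : f ⟨0, h0⟩ with u | u
  · have hall : ∀ i, ∃ x, f i = Sum.inl x := by
      intro i
      rcases hi : f i with x | x
      · exact ⟨x, rfl⟩
      · exfalso
        by_cases h1 : (⟨0, h0⟩ : Fin k) = i
        · rw [← h1, hv] at hi
          cases hi
        · have := hf _ _ h1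
          rw [hv, hi] at this
          exact this
    choose g hg using hall
    have : g ∈ OC H k := by
      rw [mem_OC]
      intro i j hij
      have := hf i j hij
      rw [hg i, hg j] at this
      exact this
    unfold A at h
    rw [card_eq_zero] at h
    rw [h] at this
    exact absurd this (notMem_empty _)
  · have hb : ∀ i, (⟨0, h0⟩ : Fin k) ≠ i → ∃ b, f i = Sum.inr (u.1, b) ∧ b ≠ u.2 := by
      intro i h1
      have := hf _ _ h1
      rw [hv] at this
      rcases hi : f i with x | x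
      · rw [hi] at this
        exact this.elim
      · rw [hi] at this
        refine ⟨x.2, ?_, this.2.symm⟩
        have h2 : u.1 = x.1 := this.1
        rw [h2]
    obtain ⟨b1, e1, n1⟩ := hb ⟨1, by omega⟩ (by simp [Fin.ext_iff])
    obtain ⟨b2, e2, n2⟩ := hb ⟨2, by omega⟩ (by simp [Fin.ext_iff])
    have := hf ⟨1, by omega⟩ ⟨2, by omega⟩ (by simp [Fin.ext_iff])
    rw [e1, e2] at this
    have h3 : b1 ≠ b2 := this.2
    revert n1 n2 h3
    cases b1 <;> cases b2 <;> cases u.2 <;> simp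

lemma D_am : D (am H q) = D H + 2 * q := by
  classical
  unfold D
  rw [card_filter, card_filter, Fintype.sum_prod_type, Fintype.sum_prod_type,
    Fintype.sum_sum_type]
  have hll : ∀ u v : X, (am H q).Adj (.inl u) (.inl v) ↔ H.Adj u v := fun _ _ => Iff.rfl
  have hrr : ∀ u v : Fin q × Bool, (am H q).Adj (.inr u) (.inr v) ↔ u.1 = v.1 ∧ u.2 ≠ v.2 :=
    fun _ _ => Iff.rfl
  have hlr : ∀ (u : X) (v : Fin q × Bool), ¬ (am H q).Adj (.inl u) (.inr v) := fun _ _ h => h
  have hrl : ∀ (u : Fin q × Bool) (v : X), ¬ (am H q).Adj (.inr u) (.inl v) := fun _ _ h => h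
  simp only [Fintype.sum_sum_type, hll, hrr, hlr, hrl, if_false, sum_const_zero, add_zero,
    zero_add]
  congr 1
  have h1 : ∀ u : Fin q × Bool, ∑ v : Fin q × Bool, (if u.1 = v.1 ∧ u.2 ≠ v.2 then 1 else 0) = 1 := by
    intro u
    rw [← card_filter]
    have : (univ.filter fun v : Fin q × Bool => u.1 = v.1 ∧ u.2 ≠ v.2) = {(u.1, !u.2)} := by
      ext ⟨i, b⟩
      rw [mem_filter, mem_singleton]
      simp only [mem_univ, true_and, Prod.mk.injEq]
      constructor
      · rintro ⟨h1, h2⟩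
        exact ⟨h1.symm, by cases b <;> cases hu : u.2 <;> simp_all⟩
      · rintro ⟨h1, h2⟩
        exact ⟨h1.symm, by rw [h2]; simp⟩
    rw [this, card_singleton]
  rw [sum_congr rfl fun u _ => h1 u, sum_const, card_univ, Fintype.card_prod, Fintype.card_fin,
    Fintype.card_bool, smul_eq_mul, mul_one, mul_comm]

end am

/-! ### the function `mex` -/

/-- the maximum number of `s`-cliques in a graph with `m` edges without `(r+1)`-clique -/
noncomputable def mex (s r m : ℕ) : ℕ :=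
  sSup {a | ∃ (n : ℕ) (G : SimpleGraph (Fin n)), G.edgeSet.ncard = m ∧ G.CliqueFree (r + 1) ∧
    cl G s = a}

lemma mex_bdd (s r m : ℕ) (hs : 2 ≤ s) : BddAbove {a | ∃ (n : ℕ) (G : SimpleGraph (Fin n)),
    G.edgeSet.ncard = m ∧ G.CliqueFree (r + 1) ∧ cl G s = a} := by
  refine ⟨⌈(s + 1 : ℝ) * Real.sqrt (2 * m : ℕ) ^ s⌉₊, ?_⟩
  rintro a ⟨n, G, hG, -, rfl⟩
  have h1 := A_bound G s hs
  rw [A_eq, D_eq, hG] at h1
  have h2 : (cl G s : ℝ) ≤ ((s.factorial * cl G s : ℕ) : ℝ) := by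
    have := Nat.le_mul_of_pos_left (cl G s) (Nat.factorial_pos s)
    exact_mod_cast this
  have h3 : (cl G s : ℝ) ≤ ⌈(s + 1 : ℝ) * Real.sqrt (2 * m : ℕ) ^ s⌉₊ :=
    (h2.trans h1).trans (Nat.le_ceil _)
  exact_mod_cast h3

theorem le_mex (s r m : ℕ) (hs : 2 ≤ s) {V : Type} [Fintype V] (G : SimpleGraph V)
    (hD : D G = 2 * m) (hA : A G (r + 1) = 0) : A G s ≤ s.factorial * mex s r m := by
  let e : V ≃ Fin (Fintype.card V) := Fintype.equivFin V
  have h1 := A_equiv G e.symm s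
  have h2 := A_equiv G e.symm (r + 1)
  have h3 := D_equiv G e.symm
  rw [← h1, A_eq]
  refine Nat.mul_le_mul_left _ ?_
  refine le_csSup (mex_bdd s r m hs) ⟨_, G.comap e.symm, ?_, ?_, rfl⟩
  · rw [D_eq, hD] at h3
    omega
  · rw [cliqueFree_iff, h2, hA]

/-- ratios -/
def RR (s k : ℕ) : Set ℝ := {x | ∃ (n : ℕ) (H : SimpleGraph (Fin n)), A H k = 0 ∧ 0 < D H ∧
  x = A H s / Real.sqrt (D H) ^ s}

lemma RR_bdd (s k : ℕ) (hs : 2 ≤ s) : BddAbove (RR s k) := by
  refine ⟨s + 1, ?_⟩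
  rintro x ⟨n, H, -, hD, rfl⟩
  have h1 : 0 < Real.sqrt (D H) := Real.sqrt_pos.2 (by exact_mod_cast hD)
  rw [div_le_iff₀ (by positivity)]
  exact A_bound H s hs

lemma RR_ne (s k : ℕ) (hk : 3 ≤ k) : (RR s k).Nonempty := by
  refine ⟨_, 2, ⊤, ?_, ?_, rfl⟩
  · rw [← cliqueFree_iff]
    exact cliqueFree_of_card_lt (by simp; omega)
  · rw [D_eq]
    have : (s(0, 1) : Sym2 (Fin 2)) ∈ (⊤ : SimpleGraph (Fin 2)).edgeSet := by simp
    have := (Set.ncard_pos (Set.toFinite _)).2 ⟨_, this⟩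
    omega

theorem ext_bound (s k : ℕ) (hs : 2 ≤ s) {n : ℕ} (H : SimpleGraph (Fin n)) (h : A H k = 0) :
    (A H s : ℝ) ≤ sSup (RR s k) * Real.sqrt (D H) ^ s := by
  rcases Nat.eq_zero_or_pos (D H) with h0 | h0
  · rw [A_zero_of_D H s hs h0, h0]
    simp only [Nat.cast_zero, Real.sqrt_zero]
    rw [zero_pow (by omega)]
    simp
  · have h1 : 0 < Real.sqrt (D H) := Real.sqrt_pos.2 (by exact_mod_cast h0)
    rw [← div_le_iff₀ (by positivity)]
    exact le_csSup (RR_bdd s k hs) ⟨n, H, h, h0, rfl⟩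

theorem mex_lower (s r : ℕ) (hs : 2 ≤ s) (hr : 2 ≤ r) (ε : ℝ) (hε : 0 < ε) :
    ∃ m0 : ℕ, ∀ m ≥ m0, (sSup (RR s (r + 1)) - ε) * Real.sqrt (2 * m : ℕ) ^ s ≤
      s.factorial * mex s r m := by
  set c := sSup (RR s (r + 1)) with hc
  obtain ⟨x, ⟨n, H, hA, hD, hx⟩, hlt⟩ := exists_lt_of_lt_csSup (RR_ne s (r + 1) (by omega))
    (show c - ε / 2 < sSup (RR s (r + 1)) by rw [← hc]; linarith)
  have hDe := D_eq H
  set e0 := H.edgeSet.ncard with he0
  have he0pos : 0 < e0 := by omega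
  obtain ⟨t0, ht0⟩ := exists_nat_gt (2 * s * (s + 1) / ε)
  refine ⟨t0 ^ 2 * e0, fun m hm => ?_⟩
  set t := Nat.sqrt (m / e0) with ht
  have h1 : t ^ 2 * e0 ≤ m := by
    have := Nat.sqrt_le' (m / e0)
    calc t ^ 2 * e0 ≤ (m / e0) * e0 := Nat.mul_le_mul_right _ this
      _ ≤ m := Nat.div_mul_le_self _ _
  have h2 : m < (t + 1) ^ 2 * e0 := by
    have := Nat.lt_succ_sqrt' (m / e0)
    exact (Nat.div_lt_iff_lt_mul he0pos).1 this
  have h3 : t0 ≤ t := by
    rw [ht, Nat.le_sqrt']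
    rw [Nat.le_div_iff_mul_le he0pos]
    exact hm
  let G := am (H.comap (Prod.fst : Fin n × Fin t → Fin n)) (m - t ^ 2 * e0)
  have hGD : D G = 2 * m := by
    rw [D_am, D_blow, hDe]
    have : 2 * e0 * t ^ 2 = 2 * (t ^ 2 * e0) := by ring
    omega
  have hGA : A G (r + 1) = 0 := by
    apply A_am_zero _ _ _ (by omega)
    rw [A_blow, hA, zero_mul]
  have h4 := le_mex s r m hs G hGD hGA
  have h5 : A H s * t ^ s ≤ A G s := by
    rw [← A_blow]
    exact A_am _ _ _
  have h6 : (A H s : ℝ) * (t : ℝ) ^ s ≤ s.factorial * mex s r m := by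
    exact_mod_cast h5.trans h4
  refine le_trans ?_ h6
  -- real estimates
  set y := Real.sqrt (D H) with hy
  have hy0 : 0 < y := Real.sqrt_pos.2 (by exact_mod_cast hD)
  have h7 : (A H s : ℝ) = x * y ^ s := by
    rw [hx]
    field_simp
  have hxb : x ≤ s + 1 := by
    have := RR_bdd s (r + 1) hs
    rw [hx, div_le_iff₀ (by positivity)]
    exact A_bound H s hs
  have hx0 : 0 ≤ x := by rw [hx]; positivity
  set z := Real.sqrt (2 * m : ℕ) with hz
  have hz0 : 0 ≤ z := Real.sqrt_nonneg _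
  have h8 : z ≤ (t + 1) * y := by
    rw [hz, hy]
    have : Real.sqrt (2 * m : ℕ) ≤ Real.sqrt (((t : ℝ) + 1) ^ 2 * D H) := by
      apply Real.sqrt_le_sqrt
      rw [hDe]
      have : (m : ℝ) ≤ ((t : ℝ) + 1) ^ 2 * e0 := by exact_mod_cast h2.le
      push_cast
      linarith
    rw [Real.sqrt_mul (by positivity), Real.sqrt_sq (by positivity)] at this
    exact this
  have ht1 : (0 : ℝ) < t + 1 := by positivity
  have h9 : (1 - s / ((t : ℝ) + 1)) * z ^ s ≤ (t * y) ^ s := by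
    have hb : 1 + (s : ℝ) * (-1 / (t + 1)) ≤ (1 + -1 / ((t : ℝ) + 1)) ^ s := by
      apply one_add_mul_le_pow
      rw [le_div_iff₀ ht1]
      have : (0 : ℝ) ≤ t := Nat.cast_nonneg t
      linarith
    have e1 : 1 + -1 / ((t : ℝ) + 1) = t / (t + 1) := by field_simp; ring
    have e2 : 1 + (s : ℝ) * (-1 / (t + 1)) = 1 - s / (t + 1) := by ring
    rw [e1, e2] at hb
    calc (1 - s / ((t : ℝ) + 1)) * z ^ s ≤ ((t : ℝ) / (t + 1)) ^ s * z ^ s := by gcongr
      _ ≤ ((t : ℝ) / (t + 1)) ^ s * ((t + 1) * y) ^ s := by gcongr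
      _ = (t * y) ^ s := by
        rw [← mul_pow]
        congr 1
        field_simp
  have h10 : (A H s : ℝ) * (t : ℝ) ^ s = x * (t * y) ^ s := by
    rw [h7, mul_pow]; ring
  rw [h10]
  have h11 : c - ε ≤ x * (1 - s / ((t : ℝ) + 1)) := by
    have h12 : (s : ℝ) * (s + 1) / (t + 1) ≤ ε / 2 := by
      rw [div_le_iff₀ ht1]
      have h13 : 2 * s * (s + 1) / ε < (t : ℝ) + 1 := by
        have : (t0 : ℝ) ≤ t := by exact_mod_cast h3
        linarith
      rw [div_lt_iff₀ hε] at h13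
      linarith
    have h14 : x * (s / ((t : ℝ) + 1)) ≤ (s : ℝ) * (s + 1) / (t + 1) := by
      have : (0 : ℝ) ≤ s / ((t : ℝ) + 1) := by positivity
      calc x * (s / ((t : ℝ) + 1)) ≤ (s + 1) * (s / ((t : ℝ) + 1)) := by gcongr
        _ = _ := by ring
    linarith
  calc (c - ε) * z ^ s ≤ x * (1 - s / ((t : ℝ) + 1)) * z ^ s := by gcongr
    _ = x * ((1 - s / ((t : ℝ) + 1)) * z ^ s) := by ring
    _ ≤ x * (t * y) ^ s := by gcongr

end Q117.SS
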