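import Pool.Agent.Q117.SS.Clean

/-! Supersaturation for clique counts: random maps. -/

set_option autoImplicit false

namespace Q117.SS

open Finset SimpleGraph

section
variable {X : Type*} [Fintype X] (H : SimpleGraph X)

open Classical in
/-- `s` ordered edges -/
noncomputable def PE (s : ℕ) : Finset (Fin s × Bool → X) :=
  univ.filter fun h => ∀ l, H.Adj (h (l, false)) (h (l, true))

lemma card_PE (s : ℕ) : (PE H s).card = D H ^ s := by
  classical
  have h1 : D H ^ s = (Fintype.piFinset fun _ : Fin s =>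
      (univ.filter fun p : X × X => H.Adj p.1 p.2)).card := by
    rw [Fintype.card_piFinset, prod_const, card_univ, Fintype.card_fin]
    rfl
  rw [h1]
  refine card_bij (fun h _ => fun l => (h (l, false), h (l, true))) ?_ ?_ ?_
  · intro h hh
    unfold PE at hh
    rw [mem_filter] at hh
    rw [Fintype.mem_piFinset]
    intro l
    rw [mem_filter]
    exact ⟨mem_univ _, hh.2 l⟩
  · intro h _ h' _ e
    funext ⟨l, b⟩
    have := congrFun e l
    simp only [Prod.mk.injEq] at this
    cases b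
    · exact this.1
    · exact this.2
  · intro q hq
    rw [Fintype.mem_piFinset] at hq
    refine ⟨fun x => if x.2 then (q x.1).2 else (q x.1).1, ?_, ?_⟩
    · unfold PE
      rw [mem_filter]
      refine ⟨mem_univ _, fun l => ?_⟩
      have := hq l
      rw [mem_filter] at this
      simpa using this.2
    · funext l
      simp

end

open Classical in
/-- number of elements with a property -/
noncomputable def ct {β : Type*} [Fintype β] (p : β → Prop) : ℕ := (univ.filter p).card

lemma ct_le {β : Type*} [Fintype β] (p : β → Prop) : ct p ≤ Fintype.card β := by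
  classical
  exact card_le_univ _

lemma ct_eq {β : Type*} [Fintype β] (p : β → Prop) (S : Finset β) (h : ∀ b, b ∈ S ↔ p b) :
    ct p = S.card := by
  classical
  unfold ct
  congr 1
  ext b
  rw [mem_filter, h]
  simp

lemma ct_swap {α β : Type*} [Fintype α] [Fintype β] (p : α → β → Prop) :
    ∑ a, ct (p a) = ∑ b, ct fun a => p a b := by
  classical
  unfold ct
  simp only [card_filter]
  exact sum_comm

lemma ct_fib {κ τ U : Type*} [Fintype κ] [Fintype τ] [Fintype U] [DecidableEq κ]
    [DecidableEq τ] (g : κ → τ) (hg : Function.Injective g) (P : (κ → U) → Prop) :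
    ct (fun φ : τ → U => P fun l => φ (g l)) =
      ct P * Fintype.card U ^ (Fintype.card τ - Fintype.card κ) := by
  classical
  have h1 := fib g hg (univ.filter P)
  have h2 : ct P = (univ.filter P).card := ct_eq _ _ fun φ => by simp
  rw [h2]
  refine Eq.trans ?_ (h1.trans ?_)
  · refine ct_eq _ _ fun φ => ?_
    simp
  · congr 2

variable {U : Type*} [Fintype U] (G : SimpleGraph U) (T : ℕ)

/-- being an ordered clique -/
def isOC {X : Type*} (G : SimpleGraph X) (k : ℕ) (f : Fin k → X) : Prop :=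
  ∀ i j, i ≠ j → G.Adj (f i) (f j)

/-- being a sequence of ordered edges -/
def isPE {X : Type*} (G : SimpleGraph X) (s : ℕ) (h : Fin s × Bool → X) : Prop :=
  ∀ l, G.Adj (h (l, false)) (h (l, true))

lemma A_ct {X : Type*} [Fintype X] (G : SimpleGraph X) (k : ℕ) : A G k = ct (isOC G k) :=
  (ct_eq _ _ fun _ => mem_OC).symm

lemma D_ct {X : Type*} [Fintype X] (G : SimpleGraph X) (s : ℕ) : D G ^ s = ct (isPE G s) := by
  classical
  rw [← card_PE]
  refine (ct_eq _ _ fun h => ?_).symm
  unfold PE isPE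
  simp

lemma A_comap (φ : Fin T → U) (k : ℕ) : A (G.comap φ) k =
    ct fun g : Fin k → Fin T => isOC G k fun l => φ (g l) := A_ct _ _

lemma D_comap (φ : Fin T → U) (s : ℕ) : D (G.comap φ) ^ s =
    ct fun g : Fin s × Bool → Fin T => isPE G s fun l => φ (g l) := D_ct _ _

lemma S1 (s : ℕ) : (T ^ s - s ^ 2 * T ^ (s - 1)) * (A G s * Fintype.card U ^ (T - s)) ≤
    ∑ φ : Fin T → U, A (G.comap φ) s := by
  classical
  simp only [A_comap]
  rw [ct_swap]
  have h1 : ∑ g ∈ univ.filter (fun g : Fin s → Fin T => Function.Injective g),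
      (ct fun φ : Fin T → U => isOC G s fun l => φ (g l)) =
      (univ.filter (fun g : Fin s → Fin T => Function.Injective g)).card *
        (A G s * Fintype.card U ^ (T - s)) := by
    rw [← smul_eq_mul, ← sum_const]
    refine sum_congr rfl fun g hg => ?_
    rw [mem_filter] at hg
    rw [ct_fib g hg.2, Fintype.card_fin, Fintype.card_fin, A_ct]
  refine le_trans ?_ (sum_le_sum_of_subset (filter_subset
    (fun g : Fin s → Fin T => Function.Injective g) univ))
  rw [h1]
  refine Nat.mul_le_mul_right _ ?_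
  have h2 := not_inj (univ.filter fun q : Fin s → Fin T => ¬ Function.Injective q)
    (fun q hq => (mem_filter.1 hq).2)
  rw [Fintype.card_fin, Fintype.card_fin] at h2
  have h3 := card_filter_add_card_filter_not (s := (univ : Finset (Fin s → Fin T)))
    (fun g => Function.Injective g)
  rw [card_univ, Fintype.card_fun, Fintype.card_fin, Fintype.card_fin] at h3
  generalize T ^ s = a at *
  generalize s ^ 2 * T ^ (s - 1) = b at *
  omega

lemma S2 (s : ℕ) : ∑ φ : Fin T → U, D (G.comap φ) ^ s ≤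
    T ^ (2 * s) * (D G ^ s * Fintype.card U ^ (T - 2 * s)) +
      (2 * s) ^ 2 * T ^ (2 * s - 1) * Fintype.card U ^ T := by
  classical
  simp only [D_comap]
  rw [ct_swap, ← sum_filter_add_sum_filter_not univ
    (fun g : Fin s × Bool → Fin T => Function.Injective g)]
  have hκ : Fintype.card (Fin s × Bool) = 2 * s := by
    rw [Fintype.card_prod, Fintype.card_fin, Fintype.card_bool, mul_comm]
  refine add_le_add ?_ ?_
  · have h1 : ∑ g ∈ univ.filter (fun g : Fin s × Bool → Fin T => Function.Injective g),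
        (ct fun φ : Fin T → U => isPE G s fun l => φ (g l)) =
        (univ.filter (fun g : Fin s × Bool → Fin T => Function.Injective g)).card *
          (D G ^ s * Fintype.card U ^ (T - 2 * s)) := by
      rw [← smul_eq_mul, ← sum_const]
      refine sum_congr rfl fun g hg => ?_
      rw [mem_filter] at hg
      rw [ct_fib g hg.2, Fintype.card_fin, hκ, D_ct]
    rw [h1]
    refine Nat.mul_le_mul_right _ ?_
    refine (card_le_univ _).trans ?_
    rw [Fintype.card_fun, hκ, Fintype.card_fin]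
  · have h2 := not_inj (univ.filter fun q : Fin s × Bool → Fin T => ¬ Function.Injective q)
      (fun q hq => (mem_filter.1 hq).2)
    rw [hκ, Fintype.card_fin] at h2
    have h3 : ∀ g ∈ univ.filter (fun g : Fin s × Bool → Fin T => ¬ Function.Injective g),
        (ct fun φ : Fin T → U => isPE G s fun l => φ (g l)) ≤ Fintype.card U ^ T := by
      intro g _
      refine (ct_le _).trans ?_
      rw [Fintype.card_fun, Fintype.card_fin]
    refine (sum_le_card_nsmul _ _ _ h3).trans ?_
    rw [smul_eq_mul]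
    exact Nat.mul_le_mul_right _ h2

lemma S3 (k : ℕ) : (ct fun φ : Fin T → U => A (G.comap φ) k ≠ 0) ≤
      T ^ k * (A G k * Fintype.card U ^ (T - k)) := by
  classical
  have h1 : (univ.filter fun φ : Fin T → U => A (G.comap φ) k ≠ 0) ⊆
      (univ.filter fun g : Fin k → Fin T => Function.Injective g).biUnion fun g =>
        univ.filter fun φ : Fin T → U => isOC G k fun l => φ (g l) := by
    intro φ hφ
    rw [mem_filter] at hφ
    obtain ⟨g, hg⟩ := card_pos.1 (Nat.pos_of_ne_zero hφ.2)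
    have hinj := OC_inj hg
    rw [mem_OC] at hg
    rw [mem_biUnion]
    refine ⟨g, ?_, ?_⟩
    · rw [mem_filter]
      exact ⟨mem_univ _, hinj⟩
    · rw [mem_filter]
      exact ⟨mem_univ _, hg⟩
  have h0 : (ct fun φ : Fin T → U => A (G.comap φ) k ≠ 0) =
      (univ.filter fun φ : Fin T → U => A (G.comap φ) k ≠ 0).card :=
    ct_eq _ _ fun φ => by simp
  rw [h0]
  refine (card_le_card h1).trans (card_biUnion_le.trans ?_)
  have h3 : ∀ g ∈ univ.filter (fun g : Fin k → Fin T => Function.Injective g),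
      (univ.filter fun φ : Fin T → U => isOC G k fun l => φ (g l)).card ≤
        A G k * Fintype.card U ^ (T - k) := by
    intro g hg
    rw [mem_filter] at hg
    have := ct_fib g hg.2 (isOC G k)
    rw [Fintype.card_fin, Fintype.card_fin, ← A_ct] at this
    rw [← this]
    apply le_of_eq
    symm
    exact ct_eq _ _ fun φ => by simp
  refine (sum_le_card_nsmul _ _ _ h3).trans ?_
  rw [smul_eq_mul]
  refine Nat.mul_le_mul_right _ ?_
  refine (card_le_univ _).trans ?_
  rw [Fintype.card_fun, Fintype.card_fin, Fintype.card_fin]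

theorem sampling [Nonempty U] (s k : ℕ) (hs : 2 ≤ s) (c : ℝ) (hc : 0 ≤ c)
    (hT1 : 0 < T) (hT2 : 2 * s ≤ T) (hT3 : k ≤ T)
    (hext : ∀ H : SimpleGraph (Fin T), A H k = 0 → (A H s : ℝ) ≤ c * Real.sqrt (D H) ^ s) :
    (A G s : ℝ) / (Fintype.card U : ℝ) ^ s ≤
      c * (Real.sqrt (D G) / Fintype.card U) ^ s + (s ^ 2 / T + 2 * s * c / Real.sqrt T) +
        T ^ k * ((A G k : ℝ) / (Fintype.card U : ℝ) ^ k) := by
  classical
  set N : ℝ := (Fintype.card U : ℝ) with hN
  have hNpos : 0 < N := by rw [hN]; exact_mod_cast Fintype.card_pos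
  have hTpos : (0 : ℝ) < T := by exact_mod_cast hT1
  set x : ℝ := Real.sqrt (D G) / N with hx
  have hx0 : 0 ≤ x := by positivity
  set a : ℝ := (A G s : ℝ) / N ^ s with ha
  set b : ℝ := (A G k : ℝ) / N ^ k with hb
  have ha0 : 0 ≤ a := by positivity
  have hb0 : 0 ≤ b := by positivity
  have ha1 : a ≤ 1 := by
    rw [ha, div_le_one (by positivity), hN]
    exact_mod_cast A_le_pow G s
  set F : ℝ := N ^ T with hF
  have hFpos : 0 < F := by positivity
  set y : (Fin T → U) → ℝ := fun φ => Real.sqrt (D (G.comap φ)) ^ s with hy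
  -- lower bound
  have e1 : ((T : ℝ) ^ s - s ^ 2 * T ^ (s - 1)) * (a * F) ≤
      ∑ φ : Fin T → U, (A (G.comap φ) s : ℝ) := by
    have h1 := S1 G T s
    have h2 : (((T ^ s - s ^ 2 * T ^ (s - 1)) * (A G s * Fintype.card U ^ (T - s)) : ℕ) : ℝ) ≤
        ∑ φ : Fin T → U, (A (G.comap φ) s : ℝ) := by exact_mod_cast h1
    refine le_trans ?_ h2
    push_cast
    have h3 : (T : ℝ) ^ s - s ^ 2 * T ^ (s - 1) ≤ ((T ^ s - s ^ 2 * T ^ (s - 1) : ℕ) : ℝ) := by
      have := Nat.sub_le_iff_le_add.1 (le_refl (T ^ s - s ^ 2 * T ^ (s - 1)))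
      have h4 : ((T ^ s : ℕ) : ℝ) ≤ ((T ^ s - s ^ 2 * T ^ (s - 1) + s ^ 2 * T ^ (s - 1) : ℕ) : ℝ) := by
        exact_mod_cast this
      push_cast at h4
      linarith
    have h5 : a * F = (A G s : ℝ) * N ^ (T - s) := by
      rw [ha, hF, ← Nat.sub_add_cancel (show s ≤ T by omega), pow_add, Nat.add_sub_cancel]
      field_simp
    rw [h5, hN]
    exact mul_le_mul_of_nonneg_right h3 (by positivity)
  -- upper bound
  have e3 : ((univ.filter fun φ : Fin T → U => A (G.comap φ) k ≠ 0).card : ℝ) ≤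
      T ^ k * (b * F) := by
    have h1 := S3 G T k
    rw [ct_eq _ (univ.filter fun φ : Fin T → U => A (G.comap φ) k ≠ 0)
      (fun φ => by simp)] at h1
    have h5 : b * F = (A G k : ℝ) * N ^ (T - k) := by
      rw [hb, hF, ← Nat.sub_add_cancel hT3, pow_add, Nat.add_sub_cancel]
      field_simp
    rw [h5, hN]
    exact_mod_cast h1
  have e2 : ∑ φ : Fin T → U, (A (G.comap φ) s : ℝ) ≤
      c * ∑ φ, y φ + T ^ s * (T ^ k * (b * F)) := by
    have h1 : ∀ φ : Fin T → U, (A (G.comap φ) s : ℝ) ≤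
        c * y φ + if A (G.comap φ) k ≠ 0 then (T : ℝ) ^ s else 0 := by
      intro φ
      split_ifs with h
      · have h2 := A_le_pow (G.comap φ) s
        rw [Fintype.card_fin] at h2
        have h3 : (A (G.comap φ) s : ℝ) ≤ (T : ℝ) ^ s := by exact_mod_cast h2
        have h4 : 0 ≤ c * y φ := by positivity
        linarith
      · push Not at h
        rw [add_zero]
        exact hext _ h
    refine (sum_le_sum fun φ _ => h1 φ).trans ?_
    rw [sum_add_distrib, ← mul_sum]
    have h2 : ∑ φ : Fin T → U, (if A (G.comap φ) k ≠ 0 then (T : ℝ) ^ s else 0) =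
        (T : ℝ) ^ s * (univ.filter fun φ : Fin T → U => A (G.comap φ) k ≠ 0).card := by
      rw [← sum_filter, sum_const, nsmul_eq_mul, mul_comm]
    rw [h2]
    have := mul_le_mul_of_nonneg_left e3 (show (0 : ℝ) ≤ (T : ℝ) ^ s by positivity)
    linarith
  -- second moment
  have e4 : ∑ φ, y φ ≤ F * ((T : ℝ) ^ s * (x ^ s + 2 * s / Real.sqrt T)) := by
    have h1 : (∑ φ, y φ) ^ 2 ≤ F * ∑ φ, y φ ^ 2 := by
      have := sq_sum_le_card_mul_sum_sq (s := (univ : Finset (Fin T → U))) (f := y)
      rw [card_univ, Fintype.card_fun, Fintype.card_fin] at this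
      rw [hF, hN]
      exact_mod_cast this
    have h2 : ∀ φ, y φ ^ 2 = (D (G.comap φ) : ℝ) ^ s := by
      intro φ
      rw [hy]
      simp only
      rw [← pow_mul, mul_comm, pow_mul, Real.sq_sqrt (Nat.cast_nonneg _)]
    have h3 : ∑ φ, y φ ^ 2 ≤ F * ((T : ℝ) ^ (2 * s) * x ^ (2 * s) +
        4 * s ^ 2 * T ^ (2 * s - 1)) := by
      simp only [h2]
      have h4 := S2 G T s
      have h5 : (∑ φ : Fin T → U, (D (G.comap φ) : ℝ) ^ s) ≤
          ((T ^ (2 * s) * (D G ^ s * Fintype.card U ^ (T - 2 * s)) +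
            (2 * s) ^ 2 * T ^ (2 * s - 1) * Fintype.card U ^ T : ℕ) : ℝ) := by
        exact_mod_cast h4
      refine h5.trans (le_of_eq ?_)
      push_cast
      have h6 : (D G : ℝ) ^ s * (Fintype.card U : ℝ) ^ (T - 2 * s) = F * x ^ (2 * s) := by
        rw [hx, div_pow, pow_mul (Real.sqrt _), Real.sq_sqrt (Nat.cast_nonneg _), hF,
          ← Nat.sub_add_cancel hT2, pow_add, Nat.add_sub_cancel, ← hN]
        field_simp
      rw [h6]
      rw [hF, hN]
      ring
    have h7 : (∑ φ, y φ) ^ 2 ≤ (F * ((T : ℝ) ^ s * (x ^ s + 2 * s / Real.sqrt T))) ^ 2 := by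
      refine h1.trans ((mul_le_mul_of_nonneg_left h3 hFpos.le).trans ?_)
      have h8 : (T : ℝ) ^ (2 * s) * x ^ (2 * s) + 4 * s ^ 2 * T ^ (2 * s - 1) ≤
          ((T : ℝ) ^ s * (x ^ s + 2 * s / Real.sqrt T)) ^ 2 := by
        have h9 : (2 * s / Real.sqrt T : ℝ) ^ 2 = 4 * s ^ 2 / T := by
          rw [div_pow, Real.sq_sqrt hTpos.le]
          ring
        have h10 : (T : ℝ) ^ (2 * s) = T ^ (2 * s - 1) * T := by
          rw [← pow_succ]
          congr 1
          omega
        have h11 : 0 ≤ x ^ s * (2 * s / Real.sqrt T) := by positivity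
        rw [mul_pow, add_sq, h9, ← pow_mul, ← pow_mul, mul_comm s 2]
        have h12 : (T : ℝ) ^ (2 * s) * (4 * s ^ 2 / T) = 4 * s ^ 2 * T ^ (2 * s - 1) := by
          rw [h10]
          field_simp
        have h13 : 0 ≤ (T : ℝ) ^ (2 * s) * (2 * x ^ s * (2 * s / Real.sqrt T)) := by positivity
        calc (T : ℝ) ^ (2 * s) * x ^ (2 * s) + 4 * s ^ 2 * T ^ (2 * s - 1)
            = (T : ℝ) ^ (2 * s) * x ^ (2 * s) + (T : ℝ) ^ (2 * s) * (4 * s ^ 2 / T) := by rw [h12]
          _ ≤ (T : ℝ) ^ (2 * s) * x ^ (2 * s) + (T : ℝ) ^ (2 * s) * (4 * s ^ 2 / T) +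
              (T : ℝ) ^ (2 * s) * (2 * x ^ s * (2 * s / Real.sqrt T)) := by linarith
          _ = _ := by ring
      calc F * (F * ((T : ℝ) ^ (2 * s) * x ^ (2 * s) + 4 * s ^ 2 * T ^ (2 * s - 1)))
          ≤ F * (F * ((T : ℝ) ^ s * (x ^ s + 2 * s / Real.sqrt T)) ^ 2) := by gcongr
        _ = _ := by ring
    exact le_of_sq_le_sq h7 (by positivity)
  -- combine
  have hTs : (0 : ℝ) < (T : ℝ) ^ s := by positivity
  have h10 : (T : ℝ) ^ s = T ^ (s - 1) * T := by
    rw [← pow_succ]
    congr 1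
    omega
  have e5 : ((T : ℝ) ^ s - s ^ 2 * T ^ (s - 1)) * (a * F) ≤
      c * (F * ((T : ℝ) ^ s * (x ^ s + 2 * s / Real.sqrt T))) + T ^ s * (T ^ k * (b * F)) := by
    have := mul_le_mul_of_nonneg_left e4 hc
    linarith
  have e6 : ((T : ℝ) ^ s - s ^ 2 * T ^ (s - 1)) * (a * F) =
      (F * T ^ s) * ((1 - s ^ 2 / T) * a) := by
    rw [h10]
    field_simp
  have e7 : c * (F * ((T : ℝ) ^ s * (x ^ s + 2 * s / Real.sqrt T))) + T ^ s * (T ^ k * (b * F)) =
      (F * T ^ s) * (c * (x ^ s + 2 * s / Real.sqrt T) + T ^ k * b) := by ring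
  rw [e6, e7] at e5
  have e8 := le_of_mul_le_mul_left e5 (by positivity)
  have e9 : (s : ℝ) ^ 2 / T * a ≤ s ^ 2 / T := by
    have : (0 : ℝ) ≤ (s : ℝ) ^ 2 / T := by positivity
    nlinarith
  have e10 : c * (x ^ s + 2 * s / Real.sqrt T) = c * x ^ s + 2 * s * c / Real.sqrt T := by ring
  rw [e10] at e8
  linarith

end Q117.SS
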